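import Pool.Agent.H71.TP.Basic
import Pool.Agent.H71.O2.K1

set_option autoImplicit false

/-!
In an automorphic loop of odd order the inversion fixes only `e` (hand proof: helper72, note 6920).
-/

namespace ALoop

open Equiv

variable {Q : Type*} {G : Subgroup (Perm Q)} {L : Q → Perm Q} {J : Perm Q} {e : Q}

namespace AL0

theorem D_sq0 (h : AL0 G L J e) (x : Q) : D L J x * D L J x = 1 := by
  unfold D
  calc L x * J * (L x)⁻¹ * (L x * J * (L x)⁻¹) = L x * (J * J) * (L x)⁻¹ := by group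
    _ = 1 := by rw [h.JJ1]; group

theorem D_memH (h : AL0 G L J e) (x : Q) : D L J x ∈ h.H := by
  unfold D
  exact h.H.mul_mem (h.H.mul_mem (h.le_H (h.memL x)) h.J_mem) (h.H.inv_mem (h.le_H (h.memL x)))

theorem D_self (h : AL0 G L J e) (x : Q) : D L J x x = x := by
  unfold D
  have h1 : (L x)⁻¹ x = e := by rw [Perm.inv_eq_iff_eq, h.Le]
  rw [Perm.mul_apply, Perm.mul_apply, h1, h.Je, h.Le]

/-- `D x y = y` is symmetric in `x`, `y` -/
theorem D_symm (h : AL0 G L J e) {x y : Q} (hxy : D L J x y = y) : D L J y x = x := by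
  obtain ⟨z, hz⟩ : ∃ z, z = (L x)⁻¹ y := ⟨_, rfl⟩
  have hy : L x z = y := by rw [hz]; exact (L x).apply_symm_apply y
  have hJz : J z = z := by
    have h1 : L x (J ((L x)⁻¹ y)) = y := hxy
    rw [← hz] at h1
    exact (L x).injective (h1.trans hy.symm)
  have h2 : D L J z e = e := by
    have h3 : (L z)⁻¹ e = J z := by rw [Perm.inv_eq_iff_eq, h.LJ]
    have h4 := h.LJ z
    unfold D
    rw [Perm.mul_apply, Perm.mul_apply, h3, h.JJ]
    rw [hJz] at h4
    exact h4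
  have h5 := h.D_conj (h.le_H (h.memL x)) z
  rw [hy] at h5
  rw [← h5, Perm.mul_apply, Perm.mul_apply]
  have h6 : (L x)⁻¹ x = e := by rw [Perm.inv_eq_iff_eq, h.Le]
  rw [h6, h2, h.Le]

/-- an element which fixes `x` commutes with `D x` -/
theorem D_com (h : AL0 G L J e) {g : Perm Q} (hg : g ∈ h.H) {x : Q} (hx : g x = x) :
    g * D L J x * g⁻¹ = D L J x := by
  rw [h.D_conj hg, hx]

/-- the family of 2-subgroups -/
def Fam (h : AL0 G L J e) (R : Subgroup (Perm Q)) : Prop :=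
  R ≤ h.H ∧ IsPGroup 2 R ∧ ∃ a b : Q, a ≠ b ∧ D L J a ∈ R ∧ ∀ g ∈ R, g a = a ∧ g b = b

theorem fix_sup {R : Subgroup (Perm Q)} {c : Perm Q} {x : Q} (hR : ∀ g ∈ R, g x = x)
    (hc : c x = x) : ∀ g ∈ R ⊔ Subgroup.zpowers c, g x = x := by
  have h1 : R ⊔ Subgroup.zpowers c ≤ MulAction.stabilizer (Perm Q) x := by
    rw [sup_le_iff, Subgroup.zpowers_le]
    exact ⟨fun g hg => hR g hg, hc⟩
  exact fun g hg => h1 hg

theorem pg_zp {M : Type*} [Group M] {c : M} {k : ℕ} (hc : c ^ (2 ^ k) = 1) :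
    IsPGroup 2 (Subgroup.zpowers c) := by
  rintro ⟨x, i, hi⟩
  refine ⟨k, Subtype.ext ?_⟩
  change x ^ (2 ^ k) = 1
  have hi' : c ^ i = x := hi
  rw [← hi', ← zpow_natCast, ← zpow_mul, mul_comm, zpow_mul, zpow_natCast, hc, one_zpow]

theorem pg_sup {M : Type*} [Group M] {R : Subgroup M} {c : M} {k : ℕ} (hR : IsPGroup 2 R)
    (hc : c ^ (2 ^ k) = 1) (hn : c ∈ Subgroup.normalizer (R : Set M)) :
    IsPGroup 2 (R ⊔ Subgroup.zpowers c : Subgroup M) := by
  refine IsPGroup.to_sup_of_normal_left' hR (pg_zp hc) ?_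
  rw [Subgroup.zpowers_le]; exact hn

theorem mem_of_max [Finite Q] (h : AL0 G L J e) {R : Subgroup (Perm Q)}
    (hmax : ∀ R' : Subgroup (Perm Q), h.Fam R' → Nat.card R' ≤ Nat.card R) {c : Perm Q}
    (hc : h.Fam (R ⊔ Subgroup.zpowers c)) : c ∈ R := by
  have h1 : R = R ⊔ Subgroup.zpowers c := Subgroup.eq_of_le_of_card_ge le_sup_left (hmax _ hc)
  rw [h1]
  exact (le_sup_right : Subgroup.zpowers c ≤ _) (Subgroup.mem_zpowers c)

/-- conjugation of a member of the family -/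
theorem fam_conj [Finite Q] (h : AL0 G L J e) {R : Subgroup (Perm Q)} (hRH : R ≤ h.H)
    (hR2 : IsPGroup 2 R) {g : Perm Q} (hg : g ∈ h.H) :
    ∃ R' : Subgroup (Perm Q), R' ≤ h.H ∧ IsPGroup 2 R' ∧ Nat.card R' = Nat.card R ∧
      (∀ x, x ∈ R' ↔ g * x * g⁻¹ ∈ R) := by
  refine ⟨R.map (MulAut.conj g⁻¹).toMonoidHom, ?_, hR2.map _, ?_, ?_⟩
  · rintro _ ⟨x, hx, rfl⟩
    change g⁻¹ * x * g⁻¹⁻¹ ∈ h.H
    exact h.H.mul_mem (h.H.mul_mem (h.H.inv_mem hg) (hRH hx)) (h.H.inv_mem (h.H.inv_mem hg))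
  · exact Subgroup.card_map_of_injective (MulAut.conj g⁻¹).injective
  · intro x
    constructor
    · rintro ⟨y, hy, rfl⟩
      change g * (g⁻¹ * y * g⁻¹⁻¹) * g⁻¹ ∈ R
      have : g * (g⁻¹ * y * g⁻¹⁻¹) * g⁻¹ = y := by group
      rw [this]; exact hy
    · intro hx
      refine ⟨g * x * g⁻¹, hx, ?_⟩
      change g⁻¹ * (g * x * g⁻¹) * g⁻¹⁻¹ = x
      group

/-- last step: `u` swaps `a` and `b` -/
theorem odd_last [Finite Q] (h : AL0 G L J e) {R : Subgroup (Perm Q)} (hRH : R ≤ h.H)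
    (hmax : ∀ R' : Subgroup (Perm Q), h.Fam R' → Nat.card R' ≤ Nat.card R)
    {a b : Q} (hJ : J ∈ R) (hDa : D L J a ∈ R) (hab : a ≠ b)
    (hfe : ∀ g ∈ R, g e = e) (hfa : ∀ g ∈ R, g a = a) (hfb : ∀ g ∈ R, g b = b)
    {u : Perm Q} (huG : u ∈ G) (hue : u e = e) (hua : u a = b) (hub : u b = a)
    (hsup : IsPGroup 2 (R ⊔ Subgroup.zpowers u : Subgroup (Perm Q))) : False := by
  have hJa := hfa J hJ
  have hJb := hfb J hJ
  -- `a b = b a`
  have hR : Rt L J a = J * L a * J := by unfold Rt; rw [hJa]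
  have hT : Tx L J a = D L J a * J := by
    unfold Tx D
    rw [hR, mul_inv_rev, mul_inv_rev, h.Jinv]; group
  have hTb : Tx L J a b = b := by
    rw [hT, Perm.mul_apply, hJb, hfb _ hDa]
  have hcomm : L a b = L b a := by
    have h1 := h.flex a
    have h2 : Tx L J a = (Rt L J a)⁻¹ * L a := by
      unfold Tx
      rw [mul_inv_eq_iff_eq_mul, mul_assoc, h1]; group
    rw [h2, Perm.mul_apply, Perm.inv_eq_iff_eq, h.Rt_app] at hTb
    exact hTb
  have hJab : J (L a b) = L a b := by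
    rw [h.aaip, hJa, hJb, hcomm]
  have hLfix : ∀ g ∈ G, g e = e → g (L a b) = L (g a) (g b) := by
    intro g hg hge
    rw [← h.equi g hg hge a, Perm.mul_apply, Perm.mul_apply, inv_apply']
  have hRab : ∀ g ∈ R, g (L a b) = L a b := by
    intro g hg
    rcases hRH hg with h1 | h1
    · rw [hLfix g h1 (hfe g hg), hfa g hg, hfb g hg]
    · have h2 : (g * J) ∈ R := R.mul_mem hg hJ
      have h3 := hLfix (g * J) h1 (hfe _ h2)
      rw [hfa _ h2, hfb _ h2, Perm.mul_apply, hJab] at h3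
      exact h3
  have huab : u (L a b) = L a b := by
    rw [hLfix u huG hue, hua, hub, hcomm]
  by_cases hne : e = L a b
  · have h1 : L a (J a) = L a b := by rw [h.LJ, ← hne]
    have h2 := (L a).injective h1
    rw [hJa] at h2
    exact hab h2
  · have hfam : h.Fam (R ⊔ Subgroup.zpowers u) := by
      refine ⟨?_, hsup, e, L a b, hne, ?_, fun g hg => ⟨?_, ?_⟩⟩
      · rw [sup_le_iff, Subgroup.zpowers_le]
        exact ⟨hRH, h.le_H huG⟩
      · rw [h.D_e]; exact (le_sup_left : R ≤ _) hJ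
      · exact fix_sup hfe hue g hg
      · exact fix_sup hRab huab g hg
    have h1 := h.mem_of_max hmax hfam
    have h2 := hfa u h1
    rw [hua] at h2
    exact hab h2.symm

/-- in an automorphic loop of odd order the inversion fixes only `e` -/
theorem hfix_of_odd5 [Finite Q] (h : AL0 G L J e) (hodd : Odd (Nat.card Q)) :
    ∀ x, J x = x → x = e := by
  classical
  intro x hx
  by_contra hxe
  -- a member of maximal order
  have hfin : Finite (Perm Q) := inferInstance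
  have hJ2 : J ^ (2 ^ 1) = 1 := by rw [pow_one, pow_two]; exact h.JJ1
  have hne : ∃ n : ℕ, ∃ R : Subgroup (Perm Q), h.Fam R ∧ Nat.card R = n := by
    refine ⟨_, Subgroup.zpowers J, ⟨?_, pg_zp hJ2, e, x, fun h1 => hxe h1.symm, ?_, ?_⟩, rfl⟩
    · rw [Subgroup.zpowers_le]; exact h.J_mem
    · rw [h.D_e]; exact Subgroup.mem_zpowers J
    · intro g hg
      have h1 : ∀ y, J y = y → g y = y := by
        intro y hy
        have h2 : Subgroup.zpowers J ≤ MulAction.stabilizer (Perm Q) y := by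
          rw [Subgroup.zpowers_le]; exact hy
        exact h2 hg
      exact ⟨h1 e h.Je, h1 x hx⟩
  obtain ⟨R0, hR0, hmax0⟩ : ∃ R : Subgroup (Perm Q), h.Fam R ∧
      ∀ R' : Subgroup (Perm Q), h.Fam R' → Nat.card R' ≤ Nat.card R := by
    obtain ⟨_, R, hR, -⟩ := hne
    have hfs : {R : Subgroup (Perm Q) | h.Fam R}.Finite := Set.toFinite _
    obtain ⟨R0, h0, h1⟩ := Set.exists_max_image _ (fun R : Subgroup (Perm Q) => Nat.card R) hfs ⟨R, hR⟩
    exact ⟨R0, h0, fun R' hR' => h1 R' hR'⟩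
  obtain ⟨hR0H, hR02, a0, b0, hab0, hDa0, hf0⟩ := hR0
  -- move `a0` to `e`
  obtain ⟨R, hRH, hR2, hcard, hmem⟩ := h.fam_conj hR0H hR02 (h.le_H (h.memL a0))
  have hmax : ∀ R' : Subgroup (Perm Q), h.Fam R' → Nat.card R' ≤ Nat.card R := by
    intro R' hR'; rw [hcard]; exact hmax0 R' hR'
  obtain ⟨b, hb⟩ : ∃ b, L a0 b = b0 := ⟨(L a0)⁻¹ b0, (L a0).apply_symm_apply b0⟩
  have hJR : J ∈ R := by
    rw [hmem]; exact hDa0
  have hbe : b ≠ e := by
    intro h1
    apply hab0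
    rw [← hb, h1, h.Le]
  have hfR : ∀ g ∈ R, ∀ y, (∀ k ∈ R0, k (L a0 y) = L a0 y) → g y = y := by
    intro g hg y hy
    have h1 := hy _ ((hmem g).1 hg)
    rw [Perm.mul_apply, Perm.mul_apply, inv_apply'] at h1
    exact (L a0).injective h1
  have hfe : ∀ g ∈ R, g e = e := fun g hg =>
    hfR g hg e (fun k hk => by rw [h.Le]; exact (hf0 k hk).1)
  have hfb : ∀ g ∈ R, g b = b := fun g hg =>
    hfR g hg b (fun k hk => by rw [hb]; exact (hf0 k hk).2)
  have hJb := hfb J hJR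
  -- any reflection `D p` with `p` fixed by `R` and which fixes `e`, `b` is in `R`
  have hDin : ∀ p, (∀ g ∈ R, g p = p) → D L J p b = b → D L J p ∈ R := by
    intro p hp hpb
    have hpe : D L J p e = e := by
      apply h.D_symm
      rw [h.D_e]; exact hp J hJR
    apply h.mem_of_max hmax
    have hn : D L J p ∈ Subgroup.normalizer (R : Set (Perm Q)) := by
      apply Subgroup.mem_normalizer_fintype
      intro n hn
      have h1 := h.D_com (hRH hn) (hp n hn)
      have h2 : D L J p * n * (D L J p)⁻¹ = n := by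
        rw [mul_inv_eq_iff_eq_mul] at h1 ⊢
        exact h1.symm
      rw [h2]; exact hn
    have hsq : D L J p ^ (2 ^ 1) = 1 := by rw [pow_one, pow_two]; exact h.D_sq0 p
    refine ⟨?_, pg_sup hR2 hsq hn, e, b, hbe.symm, ?_, fun g hg => ⟨?_, ?_⟩⟩
    · rw [sup_le_iff, Subgroup.zpowers_le]; exact ⟨hRH, h.D_memH p⟩
    · rw [h.D_e]; exact (le_sup_left : R ≤ _) hJR
    · exact fix_sup hfe hpe g hg
    · exact fix_sup hfb hpb g hg
  have hDb : D L J b ∈ R := hDin b hfb (h.D_self b)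
  -- `L b` normalises `R`
  have hLn : L b ∈ Subgroup.normalizer (R : Set (Perm Q)) := by
    apply Subgroup.mem_normalizer_fintype
    intro n hn
    rcases hRH hn with h1 | h1
    · have h2 := h.comL h1 (hfe n hn) (hfb n hn)
      have h3 : L b * n * (L b)⁻¹ = n := by rw [← h2]; group
      rw [h3]; exact hn
    · have hnJ : n * J ∈ R := R.mul_mem hn hJR
      have h2 := h.comL h1 (hfe _ hnJ) (hfb _ hnJ)
      have h3 : L b * n * (L b)⁻¹ = n * J * D L J b := by
        unfold D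
        calc L b * n * (L b)⁻¹ = L b * n * 1 * (L b)⁻¹ := by group
          _ = L b * n * (J * J) * (L b)⁻¹ := by rw [h.JJ1]
          _ = (L b * (n * J)) * J * (L b)⁻¹ := by group
          _ = ((n * J) * L b) * J * (L b)⁻¹ := by rw [h2]
          _ = _ := by group
      rw [h3]; exact R.mul_mem hnJ hDb
  -- the 2-element `u`
  obtain ⟨k, m, hm, hkm⟩ := Nat.exists_eq_two_pow_mul_odd (n := orderOf (L b)) (orderOf_pos (L b)).ne'
  obtain ⟨u, hu⟩ : ∃ u, u = L b ^ m := ⟨_, rfl⟩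
  have hu2 : u ^ (2 ^ k) = 1 := by
    rw [hu, ← pow_mul, mul_comm, ← hkm, pow_orderOf_eq_one]
  have hun : u ∈ Subgroup.normalizer (R : Set (Perm Q)) := by
    rw [hu]; exact (Subgroup.normalizer (R : Set (Perm Q))).pow_mem hLn m
  have huG : u ∈ G := by rw [hu]; exact G.pow_mem (h.memL b) m
  have hLbb : L b b = e := by
    have h1 := h.LJ b
    rwa [hJb] at h1
  have hsw : u e = b ∧ u b = e := by
    obtain ⟨j, hj⟩ := hm
    have h1 : ∀ j : ℕ, (L b ^ (2 * j)) e = e ∧ (L b ^ (2 * j)) b = b := by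
      intro j
      induction j with
      | zero => exact ⟨rfl, rfl⟩
      | succ j ih =>
        have h2 : L b ^ (2 * (j + 1)) = L b ^ (2 * j) * (L b * L b) := by
          rw [mul_add, mul_one, pow_add, pow_two]
        rw [h2]
        simp only [Perm.mul_apply]
        rw [h.Le, hLbb, h.Le]
        exact ih
    rw [hu, hj, pow_succ']
    simp only [Perm.mul_apply]
    rw [(h1 j).1, (h1 j).2, h.Le, hLbb]
    exact ⟨rfl, rfl⟩
  have hsup := pg_sup hR2 hu2 hun
  -- a fixed point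
  have : Fact (Nat.Prime 2) := ⟨Nat.prime_two⟩
  obtain ⟨p, hp⟩ := hsup.nonempty_fixed_point_of_prime_not_dvd_card Q
    (fun h1 => (Nat.not_even_iff_odd.2 hodd) (even_iff_two_dvd.2 h1))
  have hpf : ∀ g ∈ R ⊔ Subgroup.zpowers u, g p = p := fun g hg => hp ⟨g, hg⟩
  have hup : u p = p := hpf u ((le_sup_right : Subgroup.zpowers u ≤ _) (Subgroup.mem_zpowers u))
  have hRp : ∀ g ∈ R, g p = p := fun g hg => hpf g ((le_sup_left : R ≤ _) hg)
  have hDpb : D L J p b = b := h.D_symm (hRp _ hDb)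
  have hDp : D L J p ∈ R := hDin p hRp hDpb
  -- move `p` to `e`
  have hg := h.le_H (h.memL p)
  obtain ⟨R2, hR2H, hR22, hcard2, hmem2⟩ := h.fam_conj hRH hR2 hg
  obtain ⟨a', ha'⟩ : ∃ a', L p a' = e := ⟨(L p)⁻¹ e, (L p).apply_symm_apply e⟩
  obtain ⟨b', hb'⟩ : ∃ b', L p b' = b := ⟨(L p)⁻¹ b, (L p).apply_symm_apply b⟩
  have hfR2 : ∀ g ∈ R2, ∀ y, (∀ k ∈ R, k (L p y) = L p y) → g y = y := by
    intro g hg y hy
    have h1 := hy _ ((hmem2 g).1 hg)
    rw [Perm.mul_apply, Perm.mul_apply, inv_apply'] at h1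
    exact (L p).injective h1
  have hcu : ∀ y z, u (L p y) = L p z → ((L p)⁻¹ * u * L p) y = z := by
    intro y z hyz
    rw [Perm.mul_apply, Perm.mul_apply, hyz, inv_apply']
  refine h.odd_last (R := R2) (a := a') (b := b') (u := (L p)⁻¹ * u * L p) hR2H ?_ ?_ ?_ ?_ ?_ ?_ ?_
    ?_ ?_ ?_ ?_ ?_
  · intro R' hR'; rw [hcard2]; exact hmax R' hR'
  · rw [hmem2]; exact hDp
  · rw [hmem2, h.D_conj hg, ha', h.D_e]; exact hJR
  · intro h1; apply hbe; rw [← hb', ← h1, ha']
  · exact fun g hg => hfR2 g hg e (fun k hk => by rw [h.Le]; exact hRp k hk)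
  · exact fun g hg => hfR2 g hg a' (fun k hk => by rw [ha']; exact hfe k hk)
  · exact fun g hg => hfR2 g hg b' (fun k hk => by rw [hb']; exact hfb k hk)
  · exact G.mul_mem (G.mul_mem (G.inv_mem (h.memL p)) huG) (h.memL p)
  · exact hcu e e (by rw [h.Le]; exact hup)
  · exact hcu a' b' (by rw [ha', hb']; exact hsw.1)
  · exact hcu b' a' (by rw [ha', hb']; exact hsw.2)
  · -- the conjugate of a 2-group
    have h1 : R2 ⊔ Subgroup.zpowers ((L p)⁻¹ * u * L p) ≤
        (R ⊔ Subgroup.zpowers u).map (MulAut.conj (L p)⁻¹).toMonoidHom := by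
      rw [sup_le_iff, Subgroup.zpowers_le]
      constructor
      · intro g hg
        refine ⟨L p * g * (L p)⁻¹, (le_sup_left : R ≤ _) ((hmem2 g).1 hg), ?_⟩
        change (L p)⁻¹ * (L p * g * (L p)⁻¹) * (L p)⁻¹⁻¹ = g
        group
      · refine ⟨u, (le_sup_right : Subgroup.zpowers u ≤ _) (Subgroup.mem_zpowers u), ?_⟩
        change (L p)⁻¹ * u * (L p)⁻¹⁻¹ = _
        group
    exact (hsup.map (MulAut.conj (L p)⁻¹).toMonoidHom).to_le h1

end AL0

end ALoop
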